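import Pool.Agent.Run7.h838.LW.Gal
import Pool.Agent.Q163.LE.Tr

/-!
# The theorem of Lindemann and Weierstrass over simultaneously Liouville fields
-/

set_option autoImplicit false

open scoped Classical

namespace Run7.h838.LW

open Pool.Agent.Q163.LE

/-- the measure, for numbers in `ℂ` -/
theorem measure_alg {ι : Type*} [Fintype ι] (a : ι → ℂ) (ha : ∀ i, IsAlgebraic ℚ (a i))
    (hinj : Function.Injective a) : ∃ κ c : ℝ, 0 < κ ∧ 0 < c ∧
    ∀ (p : ι → ℤ) (A : ℝ), 1 ≤ A → (∀ i, |(p i : ℝ)| ≤ A) → p ≠ 0 →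
      c * A ^ (-κ) ≤ ‖∑ i, (p i : ℂ) * Complex.exp (a i)‖ := by
  obtain ⟨L, hL1, hL2, hL3⟩ := Pool.Agent.H340R2.LW.exists_galois (Finset.univ.image a) (by
    intro x hx
    obtain ⟨i, _, rfl⟩ := Finset.mem_image.1 hx
    exact ha i)
  have haL : ∀ i, a i ∈ L := fun i => hL3 _ (Finset.mem_image_of_mem _ (Finset.mem_univ i))
  let b : ι → L := fun i => ⟨a i, haL i⟩
  have hb : Function.Injective b := fun i j h => hinj (congrArg Subtype.val h)
  obtain ⟨κ, c, hκ, hc, h⟩ := measure_exp (Finset.univ.image b)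
  refine ⟨κ, c, hκ, hc, fun p A hA hp hp0 => ?_⟩
  let P : L → ℤ := fun x => if hx : ∃ i, b i = x then p hx.choose else 0
  have hP : ∀ i, P (b i) = p i := by
    intro i
    have hx : ∃ j, b j = b i := ⟨i, rfl⟩
    simp only [P]
    rw [dif_pos hx]
    congr 1
    exact hb hx.choose_spec
  have h1 := h P A hA (by
    intro x hx
    obtain ⟨i, _, rfl⟩ := Finset.mem_image.1 hx
    rw [hP]
    exact hp i) (by
    obtain ⟨i, hi⟩ := Function.ne_iff.1 hp0
    exact ⟨b i, Finset.mem_image_of_mem _ (Finset.mem_univ i), by rw [hP]; exact hi⟩)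
  rw [Finset.sum_image (fun i _ j _ hij => hb hij)] at h1
  simp only [hP] at h1
  exact h1

/-- **Linear independence** of the exponentials of distinct algebraic numbers over `F` -/
theorem li_F {F : Subfield ℝ} (hF : SimLiouville F) {ι : Type*} [Fintype ι] (a : ι → ℂ)
    (ha : ∀ i, IsAlgebraic ℚ (a i)) (hinj : Function.Injective a) :
    LinearIndependent F (fun i => Complex.exp (a i)) := by
  rw [Fintype.linearIndependent_iff]
  intro x hx
  by_contra hcon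
  push Not at hcon
  obtain ⟨j, hj⟩ := hcon
  obtain ⟨κ, c, hκ, hc, hmeas⟩ := measure_alg a ha hinj
  have hx' : ∑ i, (((x i : F) : ℝ) : ℂ) * Complex.exp (a i) = 0 := by
    rw [← hx]
    rfl
  set X : ℝ := ∑ i, |((x i : F) : ℝ)| with hX
  set M : ℝ := 1 + ∑ i, ‖Complex.exp (a i)‖ with hM
  have hX0 : 0 ≤ X := Finset.sum_nonneg fun _ _ => abs_nonneg _
  have hM1 : 1 ≤ M := by
    have : 0 ≤ ∑ i, ‖Complex.exp (a i)‖ := Finset.sum_nonneg fun _ _ => norm_nonneg _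
    linarith
  have hxj : 0 < |((x j : F) : ℝ)| := by
    rw [abs_pos]
    intro h
    exact hj (Subtype.ext h)
  set T : ℝ := M / (c * (X + 1) ^ (-κ)) with hT
  have hX1 : (0 : ℝ) < (X + 1) ^ (-κ) := Real.rpow_pos_of_pos (by linarith) _
  obtain ⟨q, hq0, hq1, hq⟩ := hF (Finset.univ.image fun i => ((x i : F) : ℝ)) (by
    intro y hy
    obtain ⟨i, _, rfl⟩ := Finset.mem_image.1 hy
    exact (x i).2) (⌈κ⌉₊ + 1) (⌈T⌉₊ + ⌈|((x j : F) : ℝ)|⁻¹⌉₊ + 1)
  have hqr : (1 : ℝ) ≤ q := by exact_mod_cast hq1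
  have hq0r : (0 : ℝ) < q := by linarith
  have hqT : T < q := by
    have h1 : ((⌈T⌉₊ + ⌈|((x j : F) : ℝ)|⁻¹⌉₊ + 1 : ℕ) : ℝ) ≤ q := by exact_mod_cast hq0
    push_cast at h1
    have h2 := Nat.le_ceil T
    have h3 : (0 : ℝ) ≤ (⌈|((x j : F) : ℝ)|⁻¹⌉₊ : ℝ) := Nat.cast_nonneg _
    linarith
  have hqx : |((x j : F) : ℝ)|⁻¹ < q := by
    have h1 : ((⌈T⌉₊ + ⌈|((x j : F) : ℝ)|⁻¹⌉₊ + 1 : ℕ) : ℝ) ≤ q := by exact_mod_cast hq0
    push_cast at h1
    have h2 := Nat.le_ceil |((x j : F) : ℝ)|⁻¹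
    have h3 : (0 : ℝ) ≤ (⌈T⌉₊ : ℝ) := Nat.cast_nonneg _
    linarith
  have hex : ∀ i, ∃ p : ℤ, |(q : ℝ) * ((x i : F) : ℝ) - p| < 1 / (q : ℝ) ^ (⌈κ⌉₊ + 1) :=
    fun i => hq _ (Finset.mem_image_of_mem _ (Finset.mem_univ i))
  choose p hp using hex
  have hq1' : (1 : ℝ) ≤ (q : ℝ) ^ (⌈κ⌉₊ + 1) := one_le_pow₀ hqr
  have herr : (1 : ℝ) / (q : ℝ) ^ (⌈κ⌉₊ + 1) ≤ 1 := by
    rw [div_le_one (by linarith)]
    exact hq1'
  have hpA : ∀ i, |(p i : ℝ)| ≤ (q : ℝ) * (X + 1) := by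
    intro i
    have h1 := (hp i).le.trans herr
    have h2 : |((x i : F) : ℝ)| ≤ X := Finset.single_le_sum
      (f := fun i => |((x i : F) : ℝ)|) (fun _ _ => abs_nonneg _) (Finset.mem_univ i)
    have h3 : |(p i : ℝ)| ≤ |(q : ℝ) * ((x i : F) : ℝ)| + |(q : ℝ) * ((x i : F) : ℝ) - p i| := by
      have h4 : (p i : ℝ) = (q : ℝ) * ((x i : F) : ℝ) - ((q : ℝ) * ((x i : F) : ℝ) - p i) := by ring
      calc |(p i : ℝ)| = |(q : ℝ) * ((x i : F) : ℝ) - ((q : ℝ) * ((x i : F) : ℝ) - p i)| := by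
            rw [← h4]
        _ ≤ _ := abs_sub _ _
    rw [abs_mul, abs_of_pos hq0r] at h3
    nlinarith
  have hpne : p ≠ 0 := by
    intro h
    have h1 := hp j
    rw [h] at h1
    simp only [Pi.zero_apply, Int.cast_zero, sub_zero] at h1
    rw [abs_mul, abs_of_pos hq0r] at h1
    have h2 : 1 < (q : ℝ) * |((x j : F) : ℝ)| := by
      rw [inv_lt_iff_one_lt_mul₀ hxj] at hqx
      linarith [mul_comm (q : ℝ) |((x j : F) : ℝ)|]
    linarith
  have hA1 : 1 ≤ (q : ℝ) * (X + 1) := by nlinarith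
  have hlow := hmeas p _ hA1 hpA hpne
  have hup : ‖∑ i, (p i : ℂ) * Complex.exp (a i)‖ ≤ 1 / (q : ℝ) ^ (⌈κ⌉₊ + 1) * M := by
    have h1 : ∑ i, (p i : ℂ) * Complex.exp (a i) =
        ∑ i, (((p i : ℝ) - (q : ℝ) * ((x i : F) : ℝ) : ℝ) : ℂ) * Complex.exp (a i) := by
      have h2 : ∑ i, (((p i : ℝ) - (q : ℝ) * ((x i : F) : ℝ) : ℝ) : ℂ) * Complex.exp (a i) =
          ∑ i, (p i : ℂ) * Complex.exp (a i) - (q : ℂ) *
            ∑ i, (((x i : F) : ℝ) : ℂ) * Complex.exp (a i) := by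
        rw [Finset.mul_sum, ← Finset.sum_sub_distrib]
        refine Finset.sum_congr rfl fun i _ => ?_
        push_cast
        ring
      rw [h2, hx', mul_zero, sub_zero]
    rw [h1]
    refine (norm_sum_le _ _).trans ?_
    calc ∑ i, ‖(((p i : ℝ) - (q : ℝ) * ((x i : F) : ℝ) : ℝ) : ℂ) * Complex.exp (a i)‖
        ≤ ∑ i, 1 / (q : ℝ) ^ (⌈κ⌉₊ + 1) * ‖Complex.exp (a i)‖ := by
          refine Finset.sum_le_sum fun i _ => ?_
          rw [norm_mul, Complex.norm_real, Real.norm_eq_abs, abs_sub_comm]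
          exact mul_le_mul_of_nonneg_right (hp i).le (norm_nonneg _)
      _ = 1 / (q : ℝ) ^ (⌈κ⌉₊ + 1) * ∑ i, ‖Complex.exp (a i)‖ := by rw [Finset.mul_sum]
      _ ≤ _ := mul_le_mul_of_nonneg_left (by linarith) (by positivity)
  have h1 := hlow.trans hup
  rw [Real.mul_rpow hq0r.le (by linarith)] at h1
  have h2 : (q : ℝ) ^ (⌈κ⌉₊ : ℝ) ≥ (q : ℝ) ^ κ := Real.rpow_le_rpow_of_exponent_le hqr (Nat.le_ceil κ)
  have h3 : (q : ℝ) ^ (-κ) * (q : ℝ) ^ κ = 1 := by
    rw [← Real.rpow_add hq0r]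
    simp
  have hqκ : 0 < (q : ℝ) ^ κ := Real.rpow_pos_of_pos hq0r _
  rw [div_mul_eq_mul_div, one_mul, le_div_iff₀ (by positivity), pow_succ] at h1
  rw [Real.rpow_natCast] at h2
  have h4 : c * (X + 1) ^ (-κ) * q ≤ M := by
    calc c * (X + 1) ^ (-κ) * q = c * (((q : ℝ) ^ (-κ) * (q : ℝ) ^ κ) * (X + 1) ^ (-κ)) * q := by
          rw [h3]; ring
      _ = c * ((q : ℝ) ^ (-κ) * (X + 1) ^ (-κ)) * ((q : ℝ) ^ κ * q) := by ring
      _ ≤ c * ((q : ℝ) ^ (-κ) * (X + 1) ^ (-κ)) * ((q : ℝ) ^ ⌈κ⌉₊ * q) := by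
          refine mul_le_mul_of_nonneg_left ?_ ?_
          · exact mul_le_mul_of_nonneg_right h2 hq0r.le
          · have : 0 < (q : ℝ) ^ (-κ) := Real.rpow_pos_of_pos hq0r _
            positivity
      _ ≤ M := h1
  have h5 : T < q := hqT
  rw [hT, div_lt_iff₀ (by positivity)] at h5
  linarith

/-- **Algebraic independence over `F`** -/
theorem ai_F {F : Subfield ℝ} (hF : SimLiouville F) {ι : Type*} (α : ι → ℂ)
    (hα : ∀ i, IsAlgebraic ℚ (α i)) (hli : LinearIndependent ℚ α) :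
    AlgebraicIndependent F (fun i => Complex.exp (α i)) := by
  rw [algebraicIndependent_iff]
  intro p hp
  have hli2 := li_F hF (fun s : p.support => (s : ι →₀ ℕ).sum fun i k => (k : ℂ) * α i) (by
    intro s
    rw [Finsupp.sum, ← mem_algebraicClosure_iff]
    exact sum_mem fun i _ => mul_mem (natCast_mem _ _) (mem_algebraicClosure_iff.2 (hα i))) (by
    intro s t hst
    apply Subtype.ext
    have h1 : ∀ s : ι →₀ ℕ, (s.sum fun i k => (k : ℂ) * α i) =
        Finsupp.linearCombination ℚ α (s.mapRange (fun k : ℕ => (k : ℚ)) (by simp)) := by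
      intro s
      rw [Finsupp.linearCombination_apply, Finsupp.sum_mapRange_index (by simp)]
      refine Finsupp.sum_congr fun i _ => ?_
      rw [Algebra.smul_def]
      simp
    simp only [h1] at hst
    have h2 := hli hst
    ext i
    have h3 := DFunLike.congr_fun h2 i
    simpa using h3)
  rw [Fintype.linearIndependent_iff] at hli2
  have hz := hli2 (fun s => p.coeff (s : ι →₀ ℕ)) (by
    rw [← hp]
    conv_rhs => rw [MvPolynomial.as_sum p, map_sum, ← Finset.sum_coe_sort]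
    refine Finset.sum_congr rfl fun s _ => ?_
    rw [MvPolynomial.aeval_monomial, Algebra.smul_def]
    congr 1
    rw [Finsupp.sum, Complex.exp_sum, Finsupp.prod]
    refine Finset.prod_congr rfl fun i _ => ?_
    rw [Complex.exp_nat_mul])
  ext s
  by_cases hs : s ∈ p.support
  · rw [hz ⟨s, hs⟩, MvPolynomial.coeff_zero]
  · rw [MvPolynomial.notMem_support_iff.1 hs, MvPolynomial.coeff_zero]

/-- the algebraic closure of `F` in `ℂ` -/
noncomputable abbrev Kc (F : Subfield ℝ) : IntermediateField F ℂ := algebraicClosure F ℂ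

/-- **Algebraic independence over the algebraic closure of `F`** -/
theorem ai_K {F : Subfield ℝ} (hF : SimLiouville F) {ι : Type*} (α : ι → ℂ)
    (hα : ∀ i, IsAlgebraic ℚ (α i)) (hli : LinearIndependent ℚ α) :
    AlgebraicIndependent (Kc F) (fun i => Complex.exp (α i)) :=
  (ai_F hF α hα hli).extendScalars (Kc F)

end Run7.h838.LW
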