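import Pool.Agent.Run7.h838.LW.Nrm

/-!
# The measure of linear independence of exponentials of algebraic numbers
-/

set_option autoImplicit false

open PowerSeries

open scoped Classical

namespace Run7.h838.LW

open Pool.Agent.Y113 Pool.Agent.R352.E

variable {L : IntermediateField ℚ ℂ} [FiniteDimensional ℚ L]

/-- the mean of `exp (σ b X)` over the Galois group -/
noncomputable def gb (b : L) : ℚ⟦X⟧ := PowerSeries.mk fun m =>
  (Fintype.card (L ≃ₐ[ℚ] L) : ℚ)⁻¹ * (Algebra.trace ℚ L (b ^ m) / m.factorial)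

lemma io_gb [IsGalois ℚ L] (b : L) : io L (gb b) =
    (Fintype.card (L ≃ₐ[ℚ] L) : ℚ)⁻¹ • ∑ σ : L ≃ₐ[ℚ] L, Es (σ b) := by
  ext1 m
  rw [io_apply, coeff_map, gb, coeff_mk, PowerSeries.coeff_smul, map_sum, Algebra.smul_def, map_mul,
    map_div₀, _root_.trace_eq_sum_automorphisms, Finset.sum_div]
  congr 1
  refine Finset.sum_congr rfl fun σ _ => ?_
  rw [coeff_Es, map_pow]
  simp

lemma Es_mem {s : Finset L} {b : L} (hb : b ∈ s) : Es b ∈ LinearMap.range (Ph s) := by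
  refine ⟨Pi.single ⟨b, hb⟩ 1, ?_⟩
  rw [Ph_apply, Finset.sum_eq_single (⟨b, hb⟩ : s)]
  · rw [Pi.single_eq_same, map_one, one_mul]
  · intro b' _ h
    rw [Pi.single_eq_of_ne h, map_zero, zero_mul]
  · intro h
    exact absurd (Finset.mem_univ _) h

lemma gb_mem [IsGalois ℚ L] {s : Finset L} (hs : ∀ b ∈ s, ∀ σ : L ≃ₐ[ℚ] L, σ b ∈ s) {b : L}
    (hb : b ∈ s) : gb b ∈ W s := by
  rw [W, Submodule.mem_comap, io_gb]
  exact Submodule.smul_mem _ _ (Submodule.sum_mem _ fun σ _ => Es_mem (hs b hb σ))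

lemma average [IsGalois ℚ L] {s : Finset L} (hs : ∀ b ∈ s, ∀ σ : L ≃ₐ[ℚ] L, σ b ∈ s) (k : L → ℚ)
    (hk : ∀ b, ∀ σ : L ≃ₐ[ℚ] L, k (σ b) = k b) :
    ∑ b ∈ s, k b • io L (gb b) = ∑ b ∈ s, k b • Es b := by
  have hn : (Fintype.card (L ≃ₐ[ℚ] L) : ℚ) ≠ 0 := by exact_mod_cast Fintype.card_ne_zero
  have h1 : ∀ σ : L ≃ₐ[ℚ] L, ∑ b ∈ s, k b • Es (σ b) = ∑ b ∈ s, k b • Es b := by
    intro σ
    refine Finset.sum_bij (fun b _ => σ b) (fun b hb => hs b hb σ) (fun a _ b _ h => σ.injective h)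
      (fun b hb => ⟨σ.symm b, hs b hb σ.symm, by simp⟩) (fun b _ => ?_)
    rw [hk]
  calc ∑ b ∈ s, k b • io L (gb b)
      = (Fintype.card (L ≃ₐ[ℚ] L) : ℚ)⁻¹ • ∑ σ : L ≃ₐ[ℚ] L, ∑ b ∈ s, k b • Es (σ b) := by
        rw [Finset.sum_comm, Finset.smul_sum]
        refine Finset.sum_congr rfl fun b _ => ?_
        rw [io_gb, smul_comm, Finset.smul_sum]
    _ = (Fintype.card (L ≃ₐ[ℚ] L) : ℚ)⁻¹ • ((Fintype.card (L ≃ₐ[ℚ] L) : ℚ) •
          ∑ b ∈ s, k b • Es b) := by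
        congr 1
        rw [Finset.sum_congr rfl (fun σ _ => h1 σ), Finset.sum_const, Finset.card_univ]
        rw [Nat.cast_smul_eq_nsmul]
    _ = _ := by rw [smul_smul, inv_mul_cancel₀ hn, one_smul]

/-- **Measure of linear independence of exponentials of algebraic numbers**, polynomial in the
size of the integer coefficients. -/
theorem measure_exp [IsGalois ℚ L] (B : Finset L) : ∃ κ c : ℝ, 0 < κ ∧ 0 < c ∧
    ∀ (p : L → ℤ) (A : ℝ), 1 ≤ A → (∀ b ∈ B, |(p b : ℝ)| ≤ A) → (∃ b ∈ B, p b ≠ 0) →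
      c * A ^ (-κ) ≤ ‖∑ b ∈ B, (p b : ℂ) * Complex.exp (b : ℂ)‖ := by
  set s : Finset L := (S B).erase 0 with hsdef
  have h0 : (0 : L) ∉ s := Finset.notMem_erase _ _
  have hs : ∀ b ∈ s, ∀ σ : L ≃ₐ[ℚ] L, σ b ∈ s := by
    intro b hb σ
    rw [hsdef, Finset.mem_erase] at hb ⊢
    exact ⟨by rw [Ne, EmbeddingLike.map_eq_zero_iff]; exact hb.1, S_stable hb.2 σ⟩
  obtain ⟨κ₁, c₁, hκ₁, hc₁, hmeas⟩ := measW h0 (fun b : s => gb (b : L)) (fun b => gb_mem hs b.2)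
  set n : ℕ := Fintype.card (L ≃ₐ[ℚ] L) with hn
  set R : ℝ := (Fintype.card ((L ≃ₐ[ℚ] L) → B) : ℝ) + 1 with hR
  set M : ℝ := 1 + ∑ σ : L ≃ₐ[ℚ] L, ∑ b ∈ B, ‖Complex.exp ((σ b : L) : ℂ)‖ with hM
  have hR1 : 1 ≤ R := by
    have : (0 : ℝ) ≤ (Fintype.card ((L ≃ₐ[ℚ] L) → B) : ℝ) := Nat.cast_nonneg _
    linarith
  have hR0 : 0 < R := by linarith
  have hM1 : 1 ≤ M := by
    have : 0 ≤ ∑ σ : L ≃ₐ[ℚ] L, ∑ b ∈ B, ‖Complex.exp ((σ b : L) : ℂ)‖ :=
      Finset.sum_nonneg fun _ _ => Finset.sum_nonneg fun _ _ => norm_nonneg _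
    linarith
  have hM0 : 0 < M := by linarith
  refine ⟨n * κ₁ + n, c₁ * R ^ (-κ₁) / M ^ n, ?_, ?_, ?_⟩
  · have h1 : (0 : ℝ) < n := by exact_mod_cast Fintype.card_pos
    positivity
  · exact div_pos (mul_pos hc₁ (Real.rpow_pos_of_pos hR0 _)) (pow_pos hM0 _)
  intro p A hA hp hp0
  have hA0 : 0 < A := by linarith
  have hAn : 1 ≤ A ^ n := one_le_pow₀ hA
  have hCo : ∀ b, |(Co p B b : ℝ)| ≤ R * A ^ n := by
    intro b
    refine (Co_bound p B hA hp b).trans ?_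
    refine mul_le_mul_of_nonneg_right ?_ (by positivity)
    linarith
  have hinv : ∀ (b : L) (σ : L ≃ₐ[ℚ] L), (Co p B (σ b) : ℚ) = (Co p B b : ℚ) := by
    intro b σ
    rw [Co_inv]
  have hav := average hs (fun b => (Co p B b : ℚ)) hinv
  -- the series
  set f' : ℚ⟦X⟧ := ∑ b : s, C (Co p B b : ℚ) * gb (b : L) with hf'
  have hiof : PowerSeries.map (algebraMap ℚ L) f' = ∑ b : s, C ((Co p B b : L)) * Es (b : L) := by
    have h1 : ∀ b : s, PowerSeries.map (algebraMap ℚ L) (C (Co p B b : ℚ) * gb (b : L)) =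
        (Co p B b : ℚ) • io L (gb (b : L)) := by
      intro b
      rw [← io_apply, ← PowerSeries.smul_eq_C_mul, map_smul]
    rw [hf', map_sum, Finset.sum_congr rfl (fun b _ => h1 b),
      Finset.sum_coe_sort s (fun b : L => (Co p B b : ℚ) • io L (gb b)), hav, ← Finset.sum_coe_sort]
    refine Finset.sum_congr rfl fun b _ => ?_
    ext1 m
    rw [PowerSeries.coeff_smul, coeff_C_mul, Algebra.smul_def, map_intCast]
  have hS : ∀ {M : Type} [AddCommMonoid M] (φ : L → M), φ 0 + ∑ b ∈ s, φ b = ∑ b ∈ insert 0 s, φ b := by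
    intro M _ φ
    rw [Finset.sum_insert h0]
  have hins : ∑ b ∈ S B, (Co p B b : ℂ) * Complex.exp (b : ℂ) =
      (Co p B 0 : ℂ) + ∑ b : s, (Co p B b : ℂ) * Complex.exp ((b : L) : ℂ) := by
    rw [Finset.sum_coe_sort s (fun b : L => (Co p B b : ℂ) * Complex.exp (b : ℂ))]
    by_cases h : (0 : L) ∈ S B
    · rw [hsdef, ← Finset.add_sum_erase _ _ h]
      simp
    · rw [hsdef, Finset.erase_eq_of_notMem h, Co_notMem p B h]
      simp
  have hval : ((((Co p B 0 : ℤ) : ℝ) + ∑ b : s, ((Co p B b : ℤ) : ℝ) * ev 1 (gb (b : L)) : ℝ) : ℂ) =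
      ∏ σ : L ≃ₐ[ℚ] L, ∑ b ∈ B, (p b : ℂ) * Complex.exp ((σ b : L) : ℂ) := by
    rw [← Co_val, hins]
    have h1 : ev 1 f' = ∑ b : s, ((Co p B b : ℤ) : ℝ) * ev 1 (gb (b : L)) := by
      have hcv : ∀ b : s, Cv 1 (gb (b : L)) := by
        intro b
        obtain ⟨C₀, h1, h2⟩ := W_size (gb_mem hs b.2)
        exact Cv_of_cf (by linarith) h2
      rw [hf', Cv.ev_sum one_pos _ _ (fun b _ => Cv.mul one_pos (Cv.C _) (hcv b))]
      refine Finset.sum_congr rfl fun b _ => ?_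
      rw [Cv.ev_mul one_pos (Cv.C _) (hcv b), ev_C]
      norm_cast
    rw [← h1]
    push_cast
    rw [ev_W hiof.symm]
    simp
  have hne : C ((Co p B 0 : ℤ) : ℚ) + ∑ b : s, C ((Co p B b : ℤ) : ℚ) * gb (b : L) ≠ 0 := by
    intro h
    obtain ⟨b, hb, hCb⟩ := Co_ne p B hp0
    apply hCb
    have h1 := congrArg (PowerSeries.map (algebraMap ℚ L)) h
    rw [map_add, ← hf', hiof, map_zero, map_C] at h1
    have h2 : ∑ b ∈ insert 0 s, ((Polynomial.C (Co p B b : L) : Polynomial L) : L⟦X⟧) * Es b = 0 := by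
      rw [Finset.sum_insert h0, ← Finset.sum_coe_sort, Es_zero, mul_one, ← h1]
      simp only [Polynomial.coe_C]
      simp
    have h3 := expLI _ _ h2 b (by
      by_cases h4 : b = 0
      · rw [h4]; exact Finset.mem_insert_self _ _
      · exact Finset.mem_insert_of_mem (Finset.mem_erase.2 ⟨h4, hb⟩))
    have h5 := Polynomial.C_eq_zero.1 h3
    exact_mod_cast h5
  have hmain := hmeas (Co p B 0) (fun b => Co p B b) (R * A ^ n) (by nlinarith) (hCo 0)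
    (fun b => hCo b) hne
  have hv1 : ∀ σ : L ≃ₐ[ℚ] L, ‖∑ b ∈ B, (p b : ℂ) * Complex.exp ((σ b : L) : ℂ)‖ ≤ M * A := by
    intro σ
    refine (norm_sum_le _ _).trans ?_
    calc ∑ b ∈ B, ‖(p b : ℂ) * Complex.exp ((σ b : L) : ℂ)‖
        ≤ ∑ b ∈ B, A * ‖Complex.exp ((σ b : L) : ℂ)‖ := by
          refine Finset.sum_le_sum fun b hb => ?_
          rw [norm_mul]
          refine mul_le_mul_of_nonneg_right ?_ (norm_nonneg _)
          have := hp b hb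
          simpa using this
      _ = A * ∑ b ∈ B, ‖Complex.exp ((σ b : L) : ℂ)‖ := by rw [Finset.mul_sum]
      _ ≤ A * M := by
          refine mul_le_mul_of_nonneg_left ?_ hA0.le
          have h2 := Finset.single_le_sum
            (f := fun σ : L ≃ₐ[ℚ] L => ∑ b ∈ B, ‖Complex.exp ((σ b : L) : ℂ)‖)
            (fun _ _ => Finset.sum_nonneg fun _ _ => norm_nonneg _) (Finset.mem_univ σ)
          linarith
      _ = M * A := mul_comm _ _
  have hprod : |(((Co p B 0 : ℤ) : ℝ) + ∑ b : s, ((Co p B b : ℤ) : ℝ) * ev 1 (gb (b : L)))| ≤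
      ‖∑ b ∈ B, (p b : ℂ) * Complex.exp (b : ℂ)‖ * (M * A) ^ n := by
    have h2 : |(((Co p B 0 : ℤ) : ℝ) + ∑ b : s, ((Co p B b : ℤ) : ℝ) * ev 1 (gb (b : L)))| =
        ‖((((Co p B 0 : ℤ) : ℝ) + ∑ b : s, ((Co p B b : ℤ) : ℝ) * ev 1 (gb (b : L)) : ℝ) : ℂ)‖ := by
      rw [Complex.norm_real, Real.norm_eq_abs]
    rw [h2, hval, norm_prod, ← Finset.mul_prod_erase Finset.univ _ (Finset.mem_univ 1)]
    refine mul_le_mul (le_of_eq ?_) ?_ (Finset.prod_nonneg fun _ _ => norm_nonneg _) (norm_nonneg _)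
    · simp
    · refine (Finset.prod_le_prod (fun _ _ => norm_nonneg _) (fun σ _ => hv1 σ)).trans ?_
      rw [Finset.prod_const]
      refine pow_le_pow_right₀ (by nlinarith) ?_
      refine (Finset.card_le_univ _).trans ?_
      rfl
  have hfin := hmain.trans hprod
  rw [Real.mul_rpow hR0.le (by positivity), mul_pow] at hfin
  have h3 : (A ^ n) ^ (-κ₁) = A ^ (-((n : ℝ) * κ₁)) := by
    rw [← Real.rpow_natCast A n, ← Real.rpow_mul hA0.le]
    congr 1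
    ring
  have h4 : A ^ (-((n : ℝ) * κ₁ + n)) * A ^ n = A ^ (-((n : ℝ) * κ₁)) := by
    rw [← Real.rpow_natCast A n, ← Real.rpow_add hA0]
    congr 1
    ring
  rw [h3, ← h4] at hfin
  have hMn : 0 < M ^ n := pow_pos hM0 _
  have hAn0 : 0 < A ^ n := pow_pos hA0 _
  rw [div_mul_eq_mul_div, div_le_iff₀ hMn]
  have h5 : (c₁ * R ^ (-κ₁) * A ^ (-((n : ℝ) * κ₁ + n))) * A ^ n ≤
      (‖∑ b ∈ B, (p b : ℂ) * Complex.exp (b : ℂ)‖ * M ^ n) * A ^ n := by
    calc _ = c₁ * (R ^ (-κ₁) * (A ^ (-((n : ℝ) * κ₁ + n)) * A ^ n)) := by ring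
      _ ≤ _ := hfin
      _ = _ := by ring
  exact le_of_mul_le_mul_right h5 hAn0

end Run7.h838.LW
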