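import Pool.Agent.Run7.h838.LW.Sp

/-!
# A measure of linear independence for the values of the series in `W`
-/

set_option autoImplicit false

open PowerSeries

namespace Run7.h838.LW

open Pool.Agent.Y113 Pool.Agent.R352.E

variable {L : IntermediateField ℚ ℂ}

lemma cf_one (m : ℕ) : cf m (1 : ℚ⟦X⟧) = if m = 0 then 1 else 0 := by
  rw [cf, coeff_one]
  by_cases h : m = 0
  · subst h; simp
  · rw [if_neg h, mul_zero]

lemma exists_ratden {ι : Type*} [Fintype ι] (u : ι → ℚ) :
    ∃ Q : ℕ, 1 ≤ Q ∧ ∀ i, ∃ a : ℤ, (Q : ℚ) * u i = a := by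
  classical
  refine ⟨∏ i, (u i).den, Nat.one_le_iff_ne_zero.2 (Finset.prod_ne_zero_iff.2 fun i _ => (u i).den_nz),
    fun i => ⟨(∏ j ∈ Finset.univ.erase i, ((u j).den : ℤ)) * (u i).num, ?_⟩⟩
  rw [← Finset.mul_prod_erase Finset.univ (fun i => (u i).den) (Finset.mem_univ i)]
  push_cast
  have h := Rat.mul_den_eq_num (u i)
  calc ((u i).den : ℚ) * (∏ j ∈ Finset.univ.erase i, ((u j).den : ℚ)) * u i
      = (∏ j ∈ Finset.univ.erase i, ((u j).den : ℚ)) * (u i * (u i).den) := by ring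
    _ = _ := by rw [h]

/-- the system of `1` and a basis of `W s` -/
theorem esys [FiniteDimensional ℚ L] {s : Finset L} {n : ℕ} (y : Fin n → ℚ⟦X⟧)
    (hy : ∀ i, y i ∈ W s) (hsp : ∀ i, d⁄dX ℚ (y i) ∈ Submodule.span ℚ (Set.range y)) :
    ∃ (q : ℕ) (C : ℝ), ESys q C (Fin.cons 1 y : Fin (n + 1) → ℚ⟦X⟧) := by
  classical
  choose c hc using fun i => W_size (hy i)
  choose D hD using fun i => W_den (hy i)
  have hM : ∀ i, ∃ m : Fin n → ℚ, ∑ j, m j • y j = d⁄dX ℚ (y i) := by
    intro i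
    exact (Submodule.mem_span_range_iff_exists_fun ℚ).1 (hsp i)
  choose M hM using hM
  obtain ⟨q, hq, hqM⟩ := exists_ratden (fun p : Fin n × Fin n => M p.1 p.2)
  choose a ha using hqM
  set DD : ℕ := ∏ i, D i with hDD
  have hDDpos : 0 < DD := Finset.prod_pos fun i _ => (hD i).1
  set C : ℝ := 1 + ∑ i, c i + DD with hC
  have hc0 : ∀ i, 0 ≤ c i := fun i => by have := (hc i).1; linarith
  have hsum : 0 ≤ ∑ i, c i := Finset.sum_nonneg fun i _ => hc0 i
  have hDDr : (1 : ℝ) ≤ DD := by exact_mod_cast hDDpos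
  have hC1 : 1 ≤ C := by linarith
  have hcC : ∀ i, c i ≤ C := by
    intro i
    have := Finset.single_le_sum (fun i _ => hc0 i) (Finset.mem_univ i)
    linarith
  refine ⟨q, C, hC1, hq, ?_, ?_, ?_⟩
  · intro i m
    refine Fin.cases ?_ (fun i => ?_) i
    · rw [Fin.cons_zero, cf_one]
      have h1 : (1 : ℝ) ≤ C ^ (m + 1) := one_le_pow₀ hC1
      split_ifs
      · simpa using h1
      · simp only [Rat.cast_zero, abs_zero]; linarith
    · rw [Fin.cons_succ]
      exact ((hc i).2 m).trans (pow_le_pow_left₀ (hc0 i) (hcC i) _)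
  · intro m
    refine ⟨DD ^ (m + 1), pow_pos hDDpos _, ?_, ?_⟩
    · push_cast
      exact pow_le_pow_left₀ (by positivity) (by linarith) _
    · intro i j hj
      refine Fin.cases ?_ (fun i => ?_) i
      · rw [Fin.cons_zero, cf_one]
        split_ifs
        · exact ⟨(DD ^ (m + 1) : ℕ), by push_cast; ring⟩
        · exact ⟨0, by simp⟩
      · rw [Fin.cons_succ]
        obtain ⟨b, hb⟩ := (hD i).2 m j hj
        refine ⟨((∏ k ∈ Finset.univ.erase i, D k) ^ (m + 1) : ℕ) * b, ?_⟩
        have h1 : DD = D i * ∏ k ∈ Finset.univ.erase i, D k := by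
          rw [hDD, Finset.mul_prod_erase Finset.univ D (Finset.mem_univ i)]
        rw [h1]
        push_cast at hb ⊢
        rw [← hb]
        ring
  · refine ⟨Fin.cons (fun _ => 0) (fun i => Fin.cons 0 (fun j => Polynomial.C (a (i, j)) *
      Polynomial.X)), fun i => ?_⟩
    refine Fin.cases ?_ (fun i => ?_) i
    · simp [ps]
    · rw [Fin.cons_succ, Fin.sum_univ_succ, Fin.cons_succ, Fin.cons_zero, Fin.cons_zero, ← hM]
      have h0 : ps (0 : Polynomial ℤ) = 0 := by simp [ps]
      rw [h0, zero_mul, zero_add, Finset.mul_sum]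
      refine Finset.sum_congr rfl fun j _ => ?_
      rw [Fin.cons_succ, Fin.cons_succ]
      have h1 : ps (Polynomial.C (a (i, j)) * Polynomial.X) =
          (TQ q : ℚ⟦X⟧) * PowerSeries.C (M i j) := by
        rw [ps, TQ, Polynomial.map_mul, Polynomial.map_C, Polynomial.map_X, ← Polynomial.coe_C,
          ← Polynomial.coe_mul]
        congr 1
        have h2 : (Int.castRingHom ℚ) (a (i, j)) = (q : ℚ) * M i j := by
          rw [ha (i, j)]; simp
        rw [h2, Polynomial.C_mul]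
        ring
      rw [h1, PowerSeries.smul_eq_C_mul]
      ring

/-- linear independence over the polynomials -/
theorem li_cons {s : Finset L} (h0 : (0 : L) ∉ s) {n : ℕ} (y : Fin n → ℚ⟦X⟧)
    (hy : ∀ i, y i ∈ W s) (hli : LinearIndependent ℚ y) :
    LinearIndependent (Polynomial ℚ) (Fin.cons 1 y : Fin (n + 1) → ℚ⟦X⟧) := by
  classical
  choose c hc using fun i => mem_W.1 (hy i)
  rw [Fintype.linearIndependent_iff]
  intro P hP
  rw [Fin.sum_univ_succ, Fin.cons_zero] at hP
  simp only [Fin.cons_succ] at hP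
  have hsm : ∀ (Q : Polynomial ℚ) (f : ℚ⟦X⟧), Q • f = (Q : ℚ⟦X⟧) * f := fun Q f => rfl
  have hup : ∀ Q : Polynomial ℚ, PowerSeries.map (algebraMap ℚ L) (Q : ℚ⟦X⟧) =
      ((Q.map (algebraMap ℚ L) : Polynomial L) : L⟦X⟧) := by
    intro Q
    rw [Polynomial.polynomial_map_coe]
  -- the polynomials over `L`
  let Q : L → Polynomial L := fun b => if hb : b ∈ s then
    ∑ i, Polynomial.C (c i ⟨b, hb⟩) * (P i.succ).map (algebraMap ℚ L) else
      (P 0).map (algebraMap ℚ L)
  have hQ0 : Q 0 = (P 0).map (algebraMap ℚ L) := by simp only [Q]; rw [dif_neg h0]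
  have hQb : ∀ b : s, Q b = ∑ i, Polynomial.C (c i b) * (P i.succ).map (algebraMap ℚ L) := by
    intro b
    simp only [Q]
    rw [dif_pos b.2]
  have hrel : ∑ b ∈ insert 0 s, (Q b : L⟦X⟧) * Es b = 0 := by
    rw [Finset.sum_insert h0, Es_zero, mul_one, hQ0, ← hup]
    have h1 := congrArg (PowerSeries.map (algebraMap ℚ L)) hP
    rw [map_add, map_zero, hsm, mul_one, map_sum] at h1
    rw [← h1]
    congr 1
    have h2 : ∀ i, PowerSeries.map (algebraMap ℚ L) (P i.succ • y i) =
        ∑ b : s, (((Polynomial.C (c i b) * (P i.succ).map (algebraMap ℚ L) : Polynomial L) :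
          L⟦X⟧)) * Es (b : L) := by
      intro i
      rw [hsm, map_mul, ← hc i, hup, Finset.mul_sum]
      refine Finset.sum_congr rfl fun b _ => ?_
      rw [Polynomial.coe_mul, Polynomial.coe_C]
      ring
    simp only [h2]
    rw [Finset.sum_comm, ← Finset.sum_coe_sort]
    refine Finset.sum_congr rfl fun b _ => ?_
    rw [hQb, ← Finset.sum_mul]
    congr 1
    have h3 := map_sum (Polynomial.coeToPowerSeries.ringHom (R := L))
      (fun i => Polynomial.C (c i b) * (P i.succ).map (algebraMap ℚ L)) Finset.univ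
    exact h3
  have hz := expLI (insert 0 s) Q hrel
  have hP0 : P 0 = 0 := by
    have := hz 0 (Finset.mem_insert_self _ _)
    rw [hQ0] at this
    exact (Polynomial.map_eq_zero (algebraMap ℚ L)).1 this
  have hPk : ∀ k, ∑ i, (P i.succ).coeff k • y i = 0 := by
    intro k
    apply io_inj (L := L)
    rw [map_zero, map_sum]
    have h1 : ∀ i, io L ((P i.succ).coeff k • y i) =
        ∑ b : s, C (algebraMap ℚ L ((P i.succ).coeff k) * c i b) * Es (b : L) := by
      intro i
      rw [io_apply, PowerSeries.smul_eq_C_mul, map_mul, ← hc i, map_C, Finset.mul_sum]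
      refine Finset.sum_congr rfl fun b _ => ?_
      rw [map_mul]
      ring
    simp only [h1]
    rw [Finset.sum_comm]
    refine Finset.sum_eq_zero fun b _ => ?_
    rw [← Finset.sum_mul, ← map_sum]
    have h2 := congrArg (fun R => R.coeff k) (hz b (Finset.mem_insert_of_mem b.2))
    simp only [hQb, Polynomial.finsetSum_coeff, Polynomial.coeff_C_mul, Polynomial.coeff_map,
      Polynomial.coeff_zero] at h2
    have h3 : ∑ i, algebraMap ℚ L ((P i.succ).coeff k) * c i b = 0 := by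
      rw [← h2]
      refine Finset.sum_congr rfl fun i _ => ?_
      ring
    rw [h3, map_zero, zero_mul]
  intro i
  refine Fin.cases hP0 (fun i => ?_) i
  ext k
  rw [Polynomial.coeff_zero]
  exact (Fintype.linearIndependent_iff.1 hli) (fun i => (P i.succ).coeff k) (hPk k) i

/-- **Measure** for integer combinations of `1` and finitely many values of series in `W s` -/
theorem measW [FiniteDimensional ℚ L] {s : Finset L} (h0 : (0 : L) ∉ s) {ι : Type*} [Fintype ι]
    (g : ι → ℚ⟦X⟧) (hg : ∀ i, g i ∈ W s) : ∃ κ c : ℝ, 0 < κ ∧ 0 < c ∧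
      ∀ (a0 : ℤ) (a : ι → ℤ) (A : ℝ), 1 ≤ A → |(a0 : ℝ)| ≤ A → (∀ i, |(a i : ℝ)| ≤ A) →
        C (a0 : ℚ) + ∑ i, C (a i : ℚ) * g i ≠ 0 →
        c * A ^ (-κ) ≤ |(a0 : ℝ) + ∑ i, (a i : ℝ) * ev 1 (g i)| := by
  classical
  set n := Module.finrank ℚ (W s) with hn
  let bs := Module.finBasis ℚ (W s)
  let y : Fin n → ℚ⟦X⟧ := fun i => (bs i : ℚ⟦X⟧)
  have hyW : ∀ i, y i ∈ W s := fun i => (bs i).2
  have hspan : ∀ f ∈ W s, f ∈ Submodule.span ℚ (Set.range y) := by
    intro f hf
    rw [Submodule.mem_span_range_iff_exists_fun]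
    refine ⟨fun i => bs.repr ⟨f, hf⟩ i, ?_⟩
    have := congrArg (W s).subtype (bs.sum_repr ⟨f, hf⟩)
    rw [map_sum] at this
    exact this
  have hli : LinearIndependent ℚ y := by
    have := bs.linearIndependent.map' (W s).subtype (Submodule.ker_subtype _)
    exact this
  obtain ⟨q, Cc, hE⟩ := esys y hyW (fun i => hspan _ (W_deriv (hyW i)))
  have hLI := li_cons h0 y hyW hli
  obtain ⟨c, hc, hmeas⟩ := Pool.Agent.N743.SS.E_meas hE 0 (by rw [Fin.cons_zero]) hLI 1 one_pos
  have hu : ∀ i, ∃ u : Fin n → ℚ, ∑ k, u k • y k = g i := fun i =>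
    (Submodule.mem_span_range_iff_exists_fun ℚ).1 (hspan _ (hg i))
  choose u hu using hu
  obtain ⟨Q, hQ, hQu⟩ := exists_ratden (fun p : ι × Fin n => u p.1 p.2)
  choose v hv using hQu
  have hcv : ∀ k, Cv 1 (y k) := by
    intro k
    obtain ⟨C₀, h1, h2⟩ := W_size (hyW k)
    exact Cv_of_cf (by linarith) h2
  have hev : ∀ i, ev 1 (g i) = ∑ k, (u i k : ℝ) * ev 1 (y k) := by
    intro i
    rw [← hu i, Cv.ev_sum one_pos]
    · refine Finset.sum_congr rfl fun k _ => ?_
      rw [PowerSeries.smul_eq_C_mul, Cv.ev_mul one_pos (Cv.C _) (hcv k), ev_C]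
    · intro k _
      rw [PowerSeries.smul_eq_C_mul]
      exact Cv.mul one_pos (Cv.C _) (hcv k)
  set R : ℝ := Q + ∑ p : ι × Fin n, |(v p : ℝ)| with hR
  have hQr : (1 : ℝ) ≤ Q := by exact_mod_cast hQ
  have hRv : 0 ≤ ∑ p : ι × Fin n, |(v p : ℝ)| := Finset.sum_nonneg fun _ _ => abs_nonneg _
  have hR1 : 1 ≤ R := by linarith
  have hR0 : 0 < R := by linarith
  refine ⟨((n + 1 : ℕ) : ℝ) - 1 + 1, c * R ^ (-(((n + 1 : ℕ) : ℝ) - 1 + 1)) / Q, ?_, ?_, ?_⟩
  · push_cast
    have : (0 : ℝ) ≤ n := Nat.cast_nonneg n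
    linarith
  · exact div_pos (mul_pos hc (Real.rpow_pos_of_pos hR0 _)) (by linarith)
  intro a0 a A hA ha0 ha hne
  let z : Fin (n + 1) → ℤ := Fin.cons ((Q : ℤ) * a0) (fun k => ∑ i, a i * v (i, k))
  have hz1 : C (Q : ℚ) * (C (a0 : ℚ) + ∑ i, C (a i : ℚ) * g i) =
      C (z 0 : ℚ) + ∑ k : Fin n, C (z k.succ : ℚ) * y k := by
    rw [mul_add]
    congr 1
    · rw [← map_mul]
      congr 1
      simp only [z, Fin.cons_zero]
      push_cast
      ring
    · rw [Finset.mul_sum]
      have h1 : ∀ i, C (Q : ℚ) * (C (a i : ℚ) * g i) = ∑ k, C ((a i * v (i, k) : ℤ) : ℚ) * y k := by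
        intro i
        rw [← hu i, Finset.mul_sum, Finset.mul_sum]
        refine Finset.sum_congr rfl fun k _ => ?_
        rw [PowerSeries.smul_eq_C_mul, Int.cast_mul, ← hv (i, k), map_mul, map_mul]
        ring
      simp only [h1]
      rw [Finset.sum_comm]
      refine Finset.sum_congr rfl fun k _ => ?_
      rw [← Finset.sum_mul]
      congr 1
      simp only [z, Fin.cons_succ]
      rw [← map_sum]
      push_cast
      rfl
  have hz0 : z ≠ 0 := by
    intro h
    apply hne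
    have h2 : C (Q : ℚ) * (C (a0 : ℚ) + ∑ i, C (a i : ℚ) * g i) = 0 := by
      rw [hz1, h]
      simp
    rcases mul_eq_zero.1 h2 with h3 | h3
    · exfalso
      have h4 : (Q : ℚ) = 0 := by
        have := congrArg (constantCoeff) h3
        simpa using this
      have : Q = 0 := by exact_mod_cast h4
      omega
    · exact h3
  have hzb : ∀ i, |(z i : ℝ)| ≤ R * A := by
    intro i
    refine Fin.cases ?_ (fun k => ?_) i
    · simp only [z, Fin.cons_zero]
      push_cast
      rw [abs_mul, abs_of_nonneg (by linarith : (0 : ℝ) ≤ Q)]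
      have h1 : (Q : ℝ) ≤ R := by linarith
      exact mul_le_mul h1 ha0 (abs_nonneg _) hR0.le
    · simp only [z, Fin.cons_succ]
      push_cast
      calc |∑ i, (a i : ℝ) * (v (i, k) : ℝ)| ≤ ∑ i, |(a i : ℝ) * (v (i, k) : ℝ)| :=
            Finset.abs_sum_le_sum_abs _ _
        _ ≤ ∑ i, A * |(v (i, k) : ℝ)| := by
            refine Finset.sum_le_sum fun i _ => ?_
            rw [abs_mul]
            exact mul_le_mul_of_nonneg_right (ha i) (abs_nonneg _)
        _ = A * ∑ i, |(v (i, k) : ℝ)| := by rw [Finset.mul_sum]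
        _ ≤ A * R := by
            refine mul_le_mul_of_nonneg_left ?_ (by linarith)
            have h2 : ∑ i, |(v (i, k) : ℝ)| ≤ ∑ p : ι × Fin n, |(v p : ℝ)| := by
              rw [Fintype.sum_prod_type]
              refine Finset.sum_le_sum fun i _ => ?_
              exact Finset.single_le_sum (f := fun k => |(v (i, k) : ℝ)|)
                (fun _ _ => abs_nonneg _) (Finset.mem_univ k)
            linarith
        _ = R * A := mul_comm _ _
  have hfin := hmeas z hz0 (R * A) hzb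
  have hval : ∑ i, (z i : ℝ) * ev 1 ((Fin.cons 1 y : Fin (n + 1) → ℚ⟦X⟧) i) =
      (Q : ℝ) * ((a0 : ℝ) + ∑ i, (a i : ℝ) * ev 1 (g i)) := by
    rw [Fin.sum_univ_succ, Fin.cons_zero, ev_one, mul_add]
    simp only [Fin.cons_succ]
    congr 1
    · simp only [z, Fin.cons_zero]
      push_cast
      ring
    · simp only [hev]
      rw [Finset.mul_sum]
      have h1 : ∀ i, (Q : ℝ) * ((a i : ℝ) * ∑ k, (u i k : ℝ) * ev 1 (y k)) =
          ∑ k, ((a i : ℝ) * (v (i, k) : ℝ)) * ev 1 (y k) := by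
        intro i
        rw [Finset.mul_sum, Finset.mul_sum]
        refine Finset.sum_congr rfl fun k _ => ?_
        have h2 : (v (i, k) : ℝ) = (Q : ℝ) * (u i k : ℝ) := by
          have := congrArg (fun x : ℚ => (x : ℝ)) (hv (i, k))
          push_cast at this
          rw [← this]
        rw [h2]
        ring
      simp only [h1]
      rw [Finset.sum_comm]
      refine Finset.sum_congr rfl fun k _ => ?_
      rw [← Finset.sum_mul]
      congr 1
      simp only [z, Fin.cons_succ]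
      push_cast
      rfl
  rw [hval, abs_mul, abs_of_nonneg (by linarith : (0 : ℝ) ≤ Q),
    Real.mul_rpow hR0.le (by linarith)] at hfin
  rw [div_mul_eq_mul_div, div_le_iff₀ (by linarith)]
  calc c * R ^ (-(((n + 1 : ℕ) : ℝ) - 1 + 1)) * A ^ (-(((n + 1 : ℕ) : ℝ) - 1 + 1))
      = c * (R ^ (-(((n + 1 : ℕ) : ℝ) - 1 + 1)) * A ^ (-(((n + 1 : ℕ) : ℝ) - 1 + 1))) := by ring
    _ ≤ _ := hfin
    _ = _ := mul_comm _ _

end Run7.h838.LW
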