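import Pool.Agent.Run7.h838.LW.Mea

/-!
# The norm of an integer combination of exponentials, and a measure of linear independence
-/

set_option autoImplicit false

open PowerSeries

open scoped Classical

namespace Run7.h838.LW

open Pool.Agent.Y113 Pool.Agent.R352.E

variable {L : IntermediateField ℚ ℂ}

/-- evaluation at `1` of a series in `W` -/
lemma ev_W {s : Finset L} {f : ℚ⟦X⟧} {c : s → L}
    (h : ∑ b : s, C (c b) * Es (b : L) = PowerSeries.map (algebraMap ℚ L) f) :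
    ((ev 1 f : ℝ) : ℂ) = ∑ b : s, ((c b : L) : ℂ) * Complex.exp ((b : L) : ℂ) := by
  have h1 : HasSum (fun m : ℕ => ∑ b : s, ((c b : L) : ℂ) * (((b : L) : ℂ) ^ m / (m.factorial : ℂ)))
      (∑ b : s, ((c b : L) : ℂ) * Complex.exp ((b : L) : ℂ)) := by
    refine hasSum_sum fun b _ => ?_
    rw [Complex.exp_eq_exp_ℂ]
    exact (NormedSpace.expSeries_div_hasSum_exp ((b : L) : ℂ)).mul_left _
  have h2 : ∀ m : ℕ, ((((coeff m f : ℚ) : ℝ) * (1 / 1) ^ m : ℝ) : ℂ) =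
      ∑ b : s, ((c b : L) : ℂ) * (((b : L) : ℂ) ^ m / (m.factorial : ℂ)) := by
    intro m
    have h3 := congrArg (fun x : L => (x : ℂ)) (coeff_W h m)
    have h4 : ((algebraMap ℚ L (cf m f) : L) : ℂ) = ((cf m f : ℚ) : ℂ) := by simp
    simp only [h4] at h3
    rw [cf] at h3
    push_cast at h3
    have h5 : (m.factorial : ℂ) ≠ 0 := by exact_mod_cast m.factorial_ne_zero
    have h6 : ((coeff m f : ℚ) : ℂ) = (∑ b : s, ((c b : L) : ℂ) * ((b : L) : ℂ) ^ m) / (m.factorial : ℂ) := by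
      rw [← h3]
      field_simp
    push_cast
    rw [div_one, one_pow, mul_one, h6, Finset.sum_div]
    refine Finset.sum_congr rfl fun b _ => ?_
    rw [mul_div_assoc]
  rw [ev, Complex.ofReal_tsum]
  simp only [h2]
  exact h1.tsum_eq

section Norm

variable [FiniteDimensional ℚ L]

/-- the exponents of the norm -/
noncomputable def Ex (B : Finset L) (f : (L ≃ₐ[ℚ] L) → B) : L :=
  ∑ σ : L ≃ₐ[ℚ] L, σ (f σ : L)

/-- the weights of the norm -/
noncomputable def Wt (p : L → ℤ) (B : Finset L) (f : (L ≃ₐ[ℚ] L) → B) : ℤ :=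
  ∏ σ : L ≃ₐ[ℚ] L, p (f σ : L)

/-- the exponents of the norm -/
noncomputable def S (B : Finset L) : Finset L := Finset.univ.image (Ex B)

/-- the coefficients of the norm -/
noncomputable def Co (p : L → ℤ) (B : Finset L) (b : L) : ℤ :=
  ∑ f ∈ Finset.univ.filter (fun f => Ex B f = b), Wt p B f

/-- translation of the functions -/
noncomputable def tr (B : Finset L) (τ : L ≃ₐ[ℚ] L) : ((L ≃ₐ[ℚ] L) → B) ≃ ((L ≃ₐ[ℚ] L) → B) :=
  Equiv.arrowCongr (Equiv.mulLeft τ) (Equiv.refl B)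

lemma tr_apply (B : Finset L) (τ : L ≃ₐ[ℚ] L) (f : (L ≃ₐ[ℚ] L) → B) (σ : L ≃ₐ[ℚ] L) :
    tr B τ f σ = f (τ⁻¹ * σ) := rfl

lemma Ex_tr (B : Finset L) (τ : L ≃ₐ[ℚ] L) (f : (L ≃ₐ[ℚ] L) → B) : Ex B (tr B τ f) = τ (Ex B f) := by
  rw [Ex, Ex, map_sum, ← Equiv.sum_comp (Equiv.mulLeft τ)]
  refine Finset.sum_congr rfl fun σ _ => ?_
  rw [Equiv.coe_mulLeft, tr_apply, inv_mul_cancel_left]
  rfl

lemma Wt_tr (p : L → ℤ) (B : Finset L) (τ : L ≃ₐ[ℚ] L) (f : (L ≃ₐ[ℚ] L) → B) :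
    Wt p B (tr B τ f) = Wt p B f := by
  rw [Wt, Wt, ← Equiv.prod_comp (Equiv.mulLeft τ)]
  refine Finset.prod_congr rfl fun σ _ => ?_
  rw [Equiv.coe_mulLeft, tr_apply, inv_mul_cancel_left]

lemma S_stable {B : Finset L} {b : L} (hb : b ∈ S B) (τ : L ≃ₐ[ℚ] L) : τ b ∈ S B := by
  rw [S, Finset.mem_image] at hb ⊢
  obtain ⟨f, _, rfl⟩ := hb
  exact ⟨tr B τ f, Finset.mem_univ _, Ex_tr B τ f⟩

lemma Co_inv (p : L → ℤ) (B : Finset L) (τ : L ≃ₐ[ℚ] L) (b : L) : Co p B (τ b) = Co p B b := by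
  rw [Co, Co]
  symm
  refine Finset.sum_equiv (tr B τ) (fun f => ?_) (fun f _ => (Wt_tr p B τ f).symm)
  rw [Finset.mem_filter, Finset.mem_filter, Ex_tr]
  simp

lemma Co_sum (p : L → ℤ) (B : Finset L) {M : Type*} [AddCommGroup M] (φ : L → M) :
    ∑ b ∈ S B, Co p B b • φ b = ∑ f, Wt p B f • φ (Ex B f) := by
  rw [← Finset.sum_fiberwise_of_maps_to (s := Finset.univ) (t := S B) (g := Ex B)]
  · refine Finset.sum_congr rfl fun b _ => ?_
    rw [Co, Finset.sum_smul]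
    refine Finset.sum_congr rfl fun f hf => ?_
    rw [(Finset.mem_filter.1 hf).2]
  · intro f _
    rw [S]
    exact Finset.mem_image_of_mem _ (Finset.mem_univ f)

lemma Co_notMem (p : L → ℤ) (B : Finset L) {b : L} (hb : b ∉ S B) : Co p B b = 0 := by
  rw [Co]
  refine Finset.sum_eq_zero fun f hf => ?_
  exfalso
  apply hb
  rw [S, ← (Finset.mem_filter.1 hf).2]
  exact Finset.mem_image_of_mem _ (Finset.mem_univ f)

lemma Co_bound (p : L → ℤ) (B : Finset L) {A : ℝ} (hA : 1 ≤ A) (hp : ∀ b ∈ B, |(p b : ℝ)| ≤ A)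
    (b : L) : |(Co p B b : ℝ)| ≤ Fintype.card ((L ≃ₐ[ℚ] L) → B) * A ^ Fintype.card (L ≃ₐ[ℚ] L) := by
  rw [Co]
  push_cast
  refine (Finset.abs_sum_le_sum_abs _ _).trans ?_
  have h1 : ∀ f : (L ≃ₐ[ℚ] L) → B, |(Wt p B f : ℝ)| ≤ A ^ Fintype.card (L ≃ₐ[ℚ] L) := by
    intro f
    rw [Wt]
    push_cast
    rw [Finset.abs_prod]
    calc ∏ σ, |(p (f σ : L) : ℝ)| ≤ ∏ _σ : L ≃ₐ[ℚ] L, A :=
          Finset.prod_le_prod (fun _ _ => abs_nonneg _) (fun σ _ => hp _ (f σ).2)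
      _ = _ := by rw [Finset.prod_const]; rfl
  refine (Finset.sum_le_card_nsmul _ _ _ (fun f _ => h1 f)).trans ?_
  rw [nsmul_eq_mul]
  refine mul_le_mul_of_nonneg_right ?_ (by positivity)
  exact_mod_cast Finset.card_le_univ _

/-- the value of the norm -/
lemma Co_val (p : L → ℤ) (B : Finset L) :
    ∑ b ∈ S B, (Co p B b : ℂ) * Complex.exp (b : ℂ) =
      ∏ σ : L ≃ₐ[ℚ] L, ∑ b ∈ B, (p b : ℂ) * Complex.exp ((σ b : L) : ℂ) := by
  have h1 := Co_sum p B (fun b : L => Complex.exp (b : ℂ))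
  simp only [zsmul_eq_mul] at h1
  rw [h1]
  have h2 : ∀ σ : L ≃ₐ[ℚ] L, ∑ b ∈ B, (p b : ℂ) * Complex.exp ((σ b : L) : ℂ) =
      ∑ b : B, (p b : ℂ) * Complex.exp ((σ (b : L) : L) : ℂ) := fun σ => (Finset.sum_coe_sort B _).symm
  simp only [h2]
  rw [Fintype.prod_sum]
  refine Finset.sum_congr rfl fun f _ => ?_
  rw [Finset.prod_mul_distrib, ← Complex.exp_sum, Wt, Ex]
  push_cast
  rfl

lemma single_prod {ι : Type*} (t : Finset ι) (b : ι → L) (r : ι → ℤ) :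
    ∏ i ∈ t, AddMonoidAlgebra.single (b i) (r i) =
      AddMonoidAlgebra.single (∑ i ∈ t, b i) (∏ i ∈ t, r i) := by
  induction t using Finset.induction_on with
  | empty => simp [AddMonoidAlgebra.one_def]
  | insert a t ha ih =>
    rw [Finset.prod_insert ha, Finset.sum_insert ha, Finset.prod_insert ha, ih,
      AddMonoidAlgebra.single_mul_single]

lemma Co_ne (p : L → ℤ) (B : Finset L) (hp : ∃ b ∈ B, p b ≠ 0) : ∃ b ∈ S B, Co p B b ≠ 0 := by
  by_contra hcon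
  push Not at hcon
  have h1 := Co_sum p B (fun b : L => AddMonoidAlgebra.single b (1 : ℤ))
  rw [Finset.sum_eq_zero (fun b hb => by rw [hcon b hb, zero_smul])] at h1
  have h2 : ∏ σ : L ≃ₐ[ℚ] L, ∑ b : B, AddMonoidAlgebra.single (σ (b : L)) (p (b : L)) = 0 := by
    rw [Fintype.prod_sum, h1]
    refine Finset.sum_congr rfl fun f _ => ?_
    rw [single_prod, Wt, Ex, AddMonoidAlgebra.smul_single, smul_eq_mul, mul_one]
  obtain ⟨σ, _, hσ⟩ := Finset.prod_eq_zero_iff.1 h2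
  obtain ⟨b, hb, hpb⟩ := hp
  apply hpb
  have h3 := congrArg (fun x => AddMonoidAlgebra.coeff x (σ b)) hσ
  simp only [AddMonoidAlgebra.coeff_sum, AddMonoidAlgebra.coeff_single, Finsupp.finsetSum_apply,
    AddMonoidAlgebra.coeff_zero, Finsupp.coe_zero, Pi.zero_apply] at h3
  rw [Finset.sum_eq_single (⟨b, hb⟩ : B)] at h3
  · simpa using h3
  · intro b' _ hb'
    rw [Finsupp.single_apply, if_neg]
    intro h4
    exact hb' (Subtype.ext (σ.injective h4))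
  · intro h4
    exact absurd (Finset.mem_univ _) h4

end Norm

end Run7.h838.LW
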