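import Mathlib

/-!
# Exponential series with distinct exponents are linearly independent over the polynomials
-/

set_option autoImplicit false

open PowerSeries

namespace Run7.h838.LW

variable {K : Type*} [Field K] [CharZero K]

/-- the series `exp (b X)` -/
noncomputable def Es (b : K) : K⟦X⟧ := PowerSeries.mk fun m => b ^ m / (m.factorial : K)

lemma coeff_Es (b : K) (m : ℕ) : coeff m (Es b) = b ^ m / (m.factorial : K) := by
  rw [Es, coeff_mk]

lemma const_Es (b : K) : constantCoeff (Es b) = 1 := by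
  rw [← coeff_zero_eq_constantCoeff_apply, coeff_Es]
  simp

lemma Es_ne (b : K) : Es b ≠ 0 := by
  intro h
  have := const_Es b
  rw [h, map_zero] at this
  exact one_ne_zero this.symm

lemma Es_zero : Es (0 : K) = 1 := by
  ext m
  rw [coeff_Es, coeff_one]
  by_cases h : m = 0
  · subst h
    simp
  · rw [if_neg h, zero_pow h, zero_div]

lemma deriv_Es (b : K) : d⁄dX K (Es b) = C b * Es b := by
  ext m
  rw [coeff_derivative, coeff_Es, coeff_C_mul, coeff_Es, Nat.factorial_succ]
  have h1 : (m.factorial : K) ≠ 0 := by exact_mod_cast m.factorial_ne_zero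
  have h2 : (m : K) + 1 ≠ 0 := by exact_mod_cast m.succ_ne_zero
  push_cast
  field_simp
  ring

/-- the operator on the polynomial factor of `exp (b X)` -/
noncomputable def dl (c : K) (Q : Polynomial K) : Polynomial K :=
  Polynomial.derivative Q + Polynomial.C c * Q

lemma dl_inj {c : K} (hc : c ≠ 0) {Q : Polynomial K} (h : dl c Q = 0) : Q = 0 := by
  by_contra hQ
  have h1 := congrArg (fun P => P.coeff Q.natDegree) h
  simp only [dl, Polynomial.coeff_add, Polynomial.coeff_C_mul, Polynomial.coeff_zero,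
    Polynomial.coeff_derivative] at h1
  rw [Polynomial.coeff_eq_zero_of_natDegree_lt (Nat.lt_succ_self _), zero_mul, zero_add] at h1
  rcases mul_eq_zero.1 h1 with h2 | h2
  · exact hc h2
  · exact hQ (Polynomial.leadingCoeff_eq_zero.1 h2)

lemma dl_iter_inj {c : K} (hc : c ≠ 0) (k : ℕ) : ∀ {Q : Polynomial K}, (dl c)^[k] Q = 0 → Q = 0 := by
  induction k with
  | zero => intro Q h; exact h
  | succ k ih =>
    intro Q h
    rw [Function.iterate_succ_apply] at h
    exact dl_inj hc (ih h)

lemma dl_zero_iter (k : ℕ) (Q : Polynomial K) : (dl (0 : K))^[k] Q = Polynomial.derivative^[k] Q := by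
  have : dl (0 : K) = fun Q => Polynomial.derivative Q := by
    funext Q
    simp [dl]
  rw [this]

/-- the operator on series -/
noncomputable def Dl (b0 : K) (f : K⟦X⟧) : K⟦X⟧ := d⁄dX K f - C b0 * f

lemma Dl_sum (b0 : K) (T : Finset K) (Q : K → Polynomial K) :
    Dl b0 (∑ b ∈ T, (Q b : K⟦X⟧) * Es b) = ∑ b ∈ T, (dl (b - b0) (Q b) : K⟦X⟧) * Es b := by
  rw [Dl, map_sum, Finset.mul_sum, ← Finset.sum_sub_distrib]
  refine Finset.sum_congr rfl fun b _ => ?_
  rw [Derivation.leibniz, deriv_Es, derivative_coe, dl]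
  push_cast
  simp only [smul_eq_mul, map_sub]
  ring

lemma Dl_iter (b0 : K) (T : Finset K) (k : ℕ) : ∀ (Q : K → Polynomial K),
    (Dl b0)^[k] (∑ b ∈ T, (Q b : K⟦X⟧) * Es b) =
      ∑ b ∈ T, (((dl (b - b0))^[k] (Q b) : Polynomial K) : K⟦X⟧) * Es b := by
  induction k with
  | zero => intro Q; rfl
  | succ k ih =>
    intro Q
    rw [Function.iterate_succ_apply, Dl_sum, ih]
    rfl

lemma Dl_iter_zero (b0 : K) (k : ℕ) : (Dl b0)^[k] (0 : K⟦X⟧) = 0 := by
  induction k with
  | zero => rfl
  | succ k ih => rw [Function.iterate_succ_apply, Dl]; simpa using ih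

/-- **Linear independence** of exponentials over the polynomials -/
theorem expLI (T : Finset K) : ∀ Q : K → Polynomial K, ∑ b ∈ T, (Q b : K⟦X⟧) * Es b = 0 →
    ∀ b ∈ T, Q b = 0 := by
  classical
  induction T using Finset.induction_on with
  | empty => intro Q _ b hb; exact absurd hb (Finset.notMem_empty b)
  | insert b0 T hb0 ih =>
    intro Q h
    have h1 := Dl_iter b0 (insert b0 T) ((Q b0).natDegree + 1) Q
    rw [h, Dl_iter_zero, Finset.sum_insert hb0, sub_self, dl_zero_iter,
      Polynomial.iterate_derivative_eq_zero (Nat.lt_succ_self _), Polynomial.coe_zero, zero_mul,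
      zero_add] at h1
    have h2 : ∀ b ∈ T, Q b = 0 := by
      intro b hb
      have h3 := ih (fun b => (dl (b - b0))^[(Q b0).natDegree + 1] (Q b)) h1.symm b hb
      exact dl_iter_inj (sub_ne_zero.2 (fun h => hb0 (by rw [← h]; exact hb))) _ h3
    have h3 : (Q b0 : K⟦X⟧) * Es b0 = 0 := by
      rw [Finset.sum_insert hb0, Finset.sum_eq_zero, add_zero] at h
      · exact h
      · intro b hb
        rw [h2 b hb, Polynomial.coe_zero, zero_mul]
    have h4 : Q b0 = 0 := by
      rcases mul_eq_zero.1 h3 with h5 | h5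
      · exact Polynomial.coe_eq_zero_iff.1 h5
      · exact absurd h5 (Es_ne b0)
    intro b hb
    rcases Finset.mem_insert.1 hb with rfl | hb
    · exact h4
    · exact h2 b hb

end Run7.h838.LW
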