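import Pool.Agent.Run7.h838.LW.Ser
import Pool.Agent.N743.SS.Meas
import Pool.Agent.H340R2.LW2

/-!
# The space of the rational power series which are combinations of exponential series with
algebraic exponents
-/

set_option autoImplicit false

open PowerSeries

namespace Run7.h838.LW

open Pool.Agent.Y113 Pool.Agent.R352.E

variable {L : IntermediateField ℚ ℂ}

/-- extension of the coefficients -/
noncomputable def io (L : IntermediateField ℚ ℂ) : ℚ⟦X⟧ →ₗ[ℚ] L⟦X⟧ where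
  toFun f := PowerSeries.map (algebraMap ℚ L) f
  map_add' f g := map_add _ f g
  map_smul' r f := by
    ext1 m
    rw [RingHom.id_apply, coeff_map, PowerSeries.coeff_smul, PowerSeries.coeff_smul, coeff_map,
      smul_eq_mul, map_mul, Algebra.smul_def]

lemma io_apply (f : ℚ⟦X⟧) : io L f = PowerSeries.map (algebraMap ℚ L) f := rfl

lemma io_inj : Function.Injective (io L) := by
  intro f g h
  ext m
  have := congrArg (coeff m) h
  rw [io_apply, io_apply, coeff_map, coeff_map] at this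
  exact (algebraMap ℚ L).injective this

/-- combinations of exponential series -/
noncomputable def Ph (s : Finset L) : (s → L) →ₗ[ℚ] L⟦X⟧ where
  toFun c := ∑ b : s, C (c b) * Es (b : L)
  map_add' c d := by
    rw [← Finset.sum_add_distrib]
    refine Finset.sum_congr rfl fun b _ => ?_
    rw [Pi.add_apply, map_add, add_mul]
  map_smul' r c := by
    rw [RingHom.id_apply, Finset.smul_sum]
    refine Finset.sum_congr rfl fun b _ => ?_
    ext1 m
    rw [PowerSeries.coeff_smul, coeff_C_mul, coeff_C_mul, Pi.smul_apply, smul_mul_assoc]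

lemma Ph_apply (s : Finset L) (c : s → L) : Ph s c = ∑ b : s, C (c b) * Es (b : L) := rfl

/-- the rational power series which are combinations of the exponential series -/
noncomputable def W (s : Finset L) : Submodule ℚ ℚ⟦X⟧ := (LinearMap.range (Ph s)).comap (io L)

lemma mem_W {s : Finset L} {f : ℚ⟦X⟧} : f ∈ W s ↔ ∃ c : s → L, ∑ b : s, C (c b) * Es (b : L) =
    PowerSeries.map (algebraMap ℚ L) f := by
  rw [W, Submodule.mem_comap, LinearMap.mem_range]
  rfl

instance W_fin [FiniteDimensional ℚ L] (s : Finset L) : Module.Finite ℚ (W s) := by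
  let φ : W s →ₗ[ℚ] LinearMap.range (Ph s) :=
    (io L).restrict (p := W s) (q := LinearMap.range (Ph s)) (fun _ h => h)
  refine Module.Finite.of_injective φ ?_
  intro f g h
  apply Subtype.ext
  apply io_inj (L := L)
  exact congrArg Subtype.val h

lemma W_deriv {s : Finset L} {f : ℚ⟦X⟧} (hf : f ∈ W s) : d⁄dX ℚ f ∈ W s := by
  rw [mem_W] at hf ⊢
  obtain ⟨c, hc⟩ := hf
  refine ⟨fun b => c b * b, ?_⟩
  have h1 : PowerSeries.map (algebraMap ℚ L) (d⁄dX ℚ f) =
      d⁄dX L (PowerSeries.map (algebraMap ℚ L) f) := by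
    ext m
    rw [coeff_map, coeff_derivative, coeff_derivative, coeff_map, map_mul]
    simp
  rw [h1, ← hc, map_sum]
  refine Finset.sum_congr rfl fun b _ => ?_
  rw [Derivation.leibniz, deriv_Es]
  have h2 : d⁄dX L (C (c b)) = 0 := by
    ext m
    rw [coeff_derivative, coeff_C]
    simp
  rw [h2, smul_zero, add_zero, smul_eq_mul, map_mul]
  ring

lemma coeff_W {s : Finset L} {f : ℚ⟦X⟧} {c : s → L}
    (h : ∑ b : s, C (c b) * Es (b : L) = PowerSeries.map (algebraMap ℚ L) f) (m : ℕ) :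
    algebraMap ℚ L (cf m f) = ∑ b : s, c b * (b : L) ^ m := by
  have h1 := congrArg (coeff m) h
  rw [coeff_map, map_sum] at h1
  rw [cf, map_mul, ← h1, Finset.mul_sum]
  refine Finset.sum_congr rfl fun b _ => ?_
  rw [coeff_C_mul, coeff_Es]
  have h2 : (m.factorial : L) ≠ 0 := by exact_mod_cast m.factorial_ne_zero
  have h3 : algebraMap ℚ L (m.factorial : ℚ) = (m.factorial : L) := by simp
  rw [h3]
  field_simp

lemma W_size {s : Finset L} {f : ℚ⟦X⟧} (hf : f ∈ W s) :
    ∃ C₀ : ℝ, 1 ≤ C₀ ∧ ∀ m, |((cf m f : ℚ) : ℝ)| ≤ C₀ ^ (m + 1) := by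
  rw [mem_W] at hf
  obtain ⟨c, hc⟩ := hf
  set C₀ : ℝ := 1 + ∑ b : s, ‖((c b : L) : ℂ)‖ + ∑ b : s, ‖((b : L) : ℂ)‖ with hC
  have h1 : 0 ≤ ∑ b : s, ‖((c b : L) : ℂ)‖ := Finset.sum_nonneg fun _ _ => norm_nonneg _
  have h2 : 0 ≤ ∑ b : s, ‖((b : L) : ℂ)‖ := Finset.sum_nonneg fun _ _ => norm_nonneg _
  refine ⟨C₀, by linarith, fun m => ?_⟩
  have h3 := congrArg (fun x : L => (x : ℂ)) (coeff_W hc m)
  have h4 : ((algebraMap ℚ L (cf m f) : L) : ℂ) = ((cf m f : ℚ) : ℂ) := by simp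
  simp only [h4] at h3
  have h5 : |((cf m f : ℚ) : ℝ)| = ‖((cf m f : ℚ) : ℂ)‖ := by
    rw [← Real.norm_eq_abs, ← Complex.norm_real, Complex.ofReal_ratCast]
  rw [h5, h3]
  push_cast
  refine (norm_sum_le _ _).trans ?_
  calc ∑ b : s, ‖((c b : L) : ℂ) * ((b : L) : ℂ) ^ m‖
      ≤ ∑ b : s, ‖((c b : L) : ℂ)‖ * C₀ ^ m := by
        refine Finset.sum_le_sum fun b _ => ?_
        rw [norm_mul, norm_pow]
        refine mul_le_mul_of_nonneg_left (pow_le_pow_left₀ (norm_nonneg _) ?_ m) (norm_nonneg _)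
        have := Finset.single_le_sum (f := fun b : s => ‖((b : L) : ℂ)‖)
          (fun i _ => norm_nonneg _) (Finset.mem_univ b)
        linarith
    _ = (∑ b : s, ‖((c b : L) : ℂ)‖) * C₀ ^ m := by rw [Finset.sum_mul]
    _ ≤ C₀ * C₀ ^ m := mul_le_mul_of_nonneg_right (by linarith) (by positivity)
    _ = C₀ ^ (m + 1) := by ring

lemma int_of_rat {x : ℚ} (h : IsIntegral ℤ (x : ℂ)) : ∃ a : ℤ, x = a := by
  have h1 : IsIntegral ℤ x := by
    have h2 : (x : ℂ) = algebraMap ℚ ℂ x := by simp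
    rw [h2] at h
    exact (isIntegral_algebraMap_iff (algebraMap ℚ ℂ).injective).1 h
  obtain ⟨a, ha⟩ := IsIntegrallyClosed.isIntegral_iff.1 h1
  exact ⟨a, by rw [← ha]; simp⟩

lemma W_den [FiniteDimensional ℚ L] {s : Finset L} {f : ℚ⟦X⟧} (hf : f ∈ W s) :
    ∃ D : ℕ, 0 < D ∧ ∀ m, ∀ j ≤ m, ∃ a : ℤ, ((D ^ (m + 1) : ℕ) : ℚ) * cf j f = a := by
  classical
  rw [mem_W] at hf
  obtain ⟨c, hc⟩ := hf
  obtain ⟨D, hD0, hD⟩ := Pool.Agent.H340R2.LW.exists_common_den
    (s.image (fun b : L => (b : ℂ)) ∪ Finset.univ.image (fun b : s => ((c b : L) : ℂ))) (by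
      intro a ha
      have hL : ∀ x : L, IsAlgebraic ℤ (x : ℂ) := by
        intro x
        have h1 : IsAlgebraic ℚ (x : ℂ) := by
          have := Algebra.IsAlgebraic.isAlgebraic (R := ℚ) x
          exact this.algebraMap
        exact (IsFractionRing.isAlgebraic_iff ℤ ℚ ℂ).2 h1
      rcases Finset.mem_union.1 ha with ha | ha
      · obtain ⟨b, _, rfl⟩ := Finset.mem_image.1 ha
        exact hL b
      · obtain ⟨b, _, rfl⟩ := Finset.mem_image.1 ha
        exact hL _)
  have hD1 : IsIntegral ℤ ((D.natAbs : ℕ) : ℂ) := by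
    have := isIntegral_algebraMap (R := ℤ) (A := ℂ) (x := (D.natAbs : ℤ))
    simpa using this
  have hDa : ∀ x : ℂ, IsIntegral ℤ ((D : ℂ) * x) → IsIntegral ℤ (((D.natAbs : ℕ) : ℂ) * x) := by
    intro x hx
    rcases Int.natAbs_eq D with h | h
    · have h2 : (D : ℂ) = ((D.natAbs : ℕ) : ℂ) := by rw [← Int.cast_natCast, ← h]
      rwa [h2] at hx
    · have h2 : (D : ℂ) = -((D.natAbs : ℕ) : ℂ) := by
        rw [← Int.cast_natCast, ← Int.cast_neg, ← h]
      rw [h2] at hx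
      have := hx.neg
      rwa [neg_mul, neg_neg] at this
  refine ⟨D.natAbs, Int.natAbs_pos.2 hD0, fun m j hj => ?_⟩
  apply int_of_rat
  have h3 := congrArg (fun x : L => (x : ℂ)) (coeff_W hc j)
  have h4 : ((algebraMap ℚ L (cf j f) : L) : ℂ) = ((cf j f : ℚ) : ℂ) := by simp
  simp only [h4] at h3
  have h5 : (((((D.natAbs ^ (m + 1) : ℕ) : ℚ) * cf j f : ℚ)) : ℂ) =
      ∑ b : s, (((D.natAbs : ℕ) : ℂ)) ^ (m - j) * ((((D.natAbs : ℕ) : ℂ) * ((c b : L) : ℂ)) *
        (((D.natAbs : ℕ) : ℂ) * ((b : L) : ℂ)) ^ j) := by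
    rw [Rat.cast_mul, h3]
    push_cast
    rw [Finset.mul_sum]
    refine Finset.sum_congr rfl fun b _ => ?_
    rw [mul_pow, show m + 1 = (m - j) + 1 + j by omega, pow_add, pow_succ]
    ring
  rw [h5]
  refine IsIntegral.sum _ fun b _ => ?_
  refine IsIntegral.mul (hD1.pow _) (IsIntegral.mul ?_ (IsIntegral.pow ?_ _))
  · exact hDa _ (hD _ (Finset.mem_union_right _ (Finset.mem_image_of_mem _ (Finset.mem_univ b))))
  · exact hDa _ (hD _ (Finset.mem_union_left _ (Finset.mem_image_of_mem _ b.2)))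

end Run7.h838.LW
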